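import Pool.Agent.Lib_helper41.QI.C123Stmt

/-!
# Module C of the quasi-isometry project: language part (C1-C3)
-/

set_option autoImplicit false

namespace H57.QI

open List

section Pad

variable {α : Type}

/-- padded pair of words -/
def pad (u v : List α) : List (Option α × Option α) :=
  (u.map some ++ List.replicate (v.length - u.length) none).zip
    (v.map some ++ List.replicate (u.length - v.length) none)

def pi1 (p : List (Option α × Option α)) : List α := (p.map Prod.fst).reduceOption
def pi2 (p : List (Option α × Option α)) : List α := (p.map Prod.snd).reduceOption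

theorem pi1_append (p q : List (Option α × Option α)) : pi1 (p ++ q) = pi1 p ++ pi1 q := by
  simp only [pi1, List.map_append, List.reduceOption_append]

theorem pi2_append (p q : List (Option α × Option α)) : pi2 (p ++ q) = pi2 p ++ pi2 q := by
  simp only [pi2, List.map_append, List.reduceOption_append]

theorem red_map_some (u : List α) : (u.map some).reduceOption = u := by
  induction u with
  | nil => rfl
  | cons a u ih => simp [List.reduceOption_cons_of_some, ih]

theorem pad_fst (u v : List α) : (pad u v).map Prod.fst =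
    u.map some ++ List.replicate (v.length - u.length) none := by
  unfold pad
  rw [List.map_fst_zip]
  simp
  omega

theorem pad_snd (u v : List α) : (pad u v).map Prod.snd =
    v.map some ++ List.replicate (u.length - v.length) none := by
  unfold pad
  rw [List.map_snd_zip]
  simp
  omega

theorem pad_length (u v : List α) : (pad u v).length = max u.length v.length := by
  simp [pad]
  omega

theorem pi1_take (u v : List α) (t : ℕ) : pi1 ((pad u v).take t) = u.take t := by
  unfold pi1
  rw [List.map_take, pad_fst, List.take_append, List.reduceOption_append, List.take_replicate,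
    List.reduceOption_replicate_none, List.append_nil, ← List.map_take, red_map_some]

theorem pi2_take (u v : List α) (t : ℕ) : pi2 ((pad u v).take t) = v.take t := by
  unfold pi2
  rw [List.map_take, pad_snd, List.take_append, List.reduceOption_append, List.take_replicate,
    List.reduceOption_replicate_none, List.append_nil, ← List.map_take, red_map_some]

theorem pi1_drop (u v : List α) (t : ℕ) : pi1 ((pad u v).drop t) = u.drop t := by
  unfold pi1
  rw [List.map_drop, pad_fst, List.drop_append, List.reduceOption_append, List.drop_replicate,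
    List.reduceOption_replicate_none, List.append_nil, ← List.map_drop, red_map_some]

theorem pi2_drop (u v : List α) (t : ℕ) : pi2 ((pad u v).drop t) = v.drop t := by
  unfold pi2
  rw [List.map_drop, pad_snd, List.drop_append, List.reduceOption_append, List.drop_replicate,
    List.reduceOption_replicate_none, List.append_nil, ← List.map_drop, red_map_some]

theorem pi1_pad (u v : List α) : pi1 (pad u v) = u := by
  have := pi1_drop u v 0
  simpa using this

theorem pi2_pad (u v : List α) : pi2 (pad u v) = v := by
  have := pi2_drop u v 0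
  simpa using this

end Pad

section Cmp

/-- state of the comparison of two words -/
inductive Cmp
  | eq | lt | gt | sh
  deriving DecidableEq

instance : Fintype Cmp := ⟨{Cmp.eq, Cmp.lt, Cmp.gt, Cmp.sh}, fun c => by cases c <;> simp⟩

variable {α : Type} (r : α → α → Prop)

open Classical in
/-- one step of the comparison -/
noncomputable def cstep (c : Cmp) (o : Option α) (b : α) : Cmp :=
  match o with
  | none => Cmp.sh
  | some a => if c = Cmp.eq then (if r a b then Cmp.lt else if a = b then Cmp.eq else Cmp.gt) else c

/-- the comparison -/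
noncomputable def crun : Cmp → List (Option α) → List α → Cmp
  | c, o :: os, b :: w => crun (cstep r c o b) os w
  | c, _, _ => c

theorem crun_none (n : ℕ) (w : List α) (h : w.length = n) :
    crun r Cmp.sh (List.replicate n none) w = Cmp.sh := by
  induction n generalizing w with
  | zero =>
    cases w with
    | nil => rfl
    | cons b w => simp at h
  | succ n ih =>
    cases w with
    | nil => simp at h
    | cons b w =>
      simp only [List.replicate_succ, crun, cstep]
      exact ih w (by simpa using h)

theorem crun_short (u w : List α) (n : ℕ) (h : w.length = u.length + (n + 1)) (c : Cmp) :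
    crun r c (u.map some ++ List.replicate (n + 1) none) w = Cmp.sh := by
  induction u generalizing w c with
  | nil =>
    cases w with
    | nil => simp at h
    | cons b w =>
      simp only [List.map_nil, List.nil_append, List.replicate_succ, crun, cstep]
      exact crun_none r n w (by simpa using h)
  | cons a u ih =>
    cases w with
    | nil => simp at h
    | cons b w =>
      simp only [List.map_cons, List.cons_append, crun]
      exact ih w (by simp at h ⊢; omega) _

theorem crun_stay (u w : List α) (h : w.length = u.length) (c : Cmp) (hc : c ≠ Cmp.eq) :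
    crun r c (u.map some) w = c := by
  induction u generalizing w with
  | nil =>
    cases w with
    | nil => rfl
    | cons b w => simp at h
  | cons a u ih =>
    cases w with
    | nil => simp at h
    | cons b w =>
      simp only [List.map_cons, crun, cstep, if_neg hc]
      exact ih w (by simpa using h)

theorem crun_eq (u w : List α) (h : w.length = u.length) :
    (crun r Cmp.eq (u.map some) w = Cmp.lt ↔ List.Lex r u w) ∧
      crun r Cmp.eq (u.map some) w ≠ Cmp.sh := by
  induction u generalizing w with
  | nil =>
    cases w with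
    | nil => simp [crun]
    | cons b w => simp at h
  | cons a u ih =>
    cases w with
    | nil => simp at h
    | cons b w =>
      have hl : w.length = u.length := by simpa using h
      simp only [List.map_cons, crun, cstep, if_true]
      by_cases h1 : r a b
      · rw [if_pos h1, crun_stay r u w hl _ (by decide)]
        exact ⟨⟨fun _ => List.Lex.rel h1, fun _ => rfl⟩, by decide⟩
      · rw [if_neg h1]
        by_cases h2 : a = b
        · subst h2
          rw [if_pos rfl]
          refine ⟨?_, (ih w hl).2⟩
          rw [(ih w hl).1]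
          constructor
          · intro h3
            exact List.Lex.cons h3
          · intro h3
            cases h3 with
            | cons h4 => exact h4
            | rel h4 => exact absurd h4 h1
        · rw [if_neg h2, crun_stay r u w hl _ (by decide)]
          refine ⟨⟨fun h3 => absurd h3 (by decide), fun h3 => ?_⟩, by decide⟩
          cases h3 with
          | cons h4 => exact absurd rfl h2
          | rel h4 => exact absurd h4 h1

theorem crun_iff (u w : List α) (h : u.length ≤ w.length) :
    (crun r Cmp.eq (u.map some ++ List.replicate (w.length - u.length) none) w = Cmp.lt ∨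
      crun r Cmp.eq (u.map some ++ List.replicate (w.length - u.length) none) w = Cmp.sh) ↔
      List.Shortlex r u w := by
  rcases h.lt_or_eq with h1 | h1
  · obtain ⟨n, hn⟩ : ∃ n, w.length = u.length + (n + 1) := ⟨w.length - u.length - 1, by omega⟩
    have h2 : w.length - u.length = n + 1 := by omega
    rw [h2, crun_short r u w n hn]
    exact ⟨fun _ => List.Shortlex.of_length_lt h1, fun _ => Or.inr rfl⟩
  · have h2 : w.length - u.length = 0 := by omega
    rw [h2, List.replicate_zero, List.append_nil]
    obtain ⟨e1, e2⟩ := crun_eq r u w h1.symm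
    rw [List.shortlex_iff_lex h1, ← e1]
    constructor
    · rintro (h3 | h3)
      · exact h3
      · exact absurd h3 e2
    · exact Or.inl

end Cmp

section Nfa

variable {α τ : Type} (r : α → α → Prop) (M : DFA (Option α × Option α) τ)

/-- guesses a word which is smaller -/
noncomputable def smaller : NFA α (τ × Cmp) where
  step s b := {t | ∃ o : Option α, t = (M.step s.1 (o, some b), cstep r s.2 o b)}
  start := {(M.start, Cmp.eq)}
  accept := {t | t.1 ∈ M.accept ∧ (t.2 = Cmp.lt ∨ t.2 = Cmp.sh)}

theorem smaller_eval (w : List α) (S : Set (τ × Cmp)) (t : τ × Cmp) :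
    t ∈ (smaller r M).evalFrom S w ↔ ∃ s ∈ S, ∃ os : List (Option α), os.length = w.length ∧
      t = (M.evalFrom s.1 (os.zip (w.map some)), crun r s.2 os w) := by
  induction w generalizing S with
  | nil =>
    simp only [NFA.evalFrom_nil, List.length_nil, List.length_eq_zero_iff]
    constructor
    · intro h
      exact ⟨t, h, [], rfl, rfl⟩
    · rintro ⟨s, hs, os, rfl, ht⟩
      simp only [List.map_nil, List.zip_nil_right, DFA.evalFrom_nil, crun] at ht
      rw [ht]
      exact hs
  | cons b w ih =>
    rw [NFA.evalFrom_cons, ih]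
    constructor
    · rintro ⟨s, hs, os, hos, ht⟩
      rw [NFA.mem_stepSet] at hs
      obtain ⟨s', hs', o, rfl⟩ := hs
      exact ⟨s', hs', o :: os, by simp [hos], ht⟩
    · rintro ⟨s, hs, os, hos, ht⟩
      cases os with
      | nil => simp at hos
      | cons o os =>
        refine ⟨(M.step s.1 (o, some b), cstep r s.2 o b), ?_, os, by simpa using hos, ht⟩
        rw [NFA.mem_stepSet]
        exact ⟨s, hs, o, rfl⟩

theorem smaller_accepts (R : List α → List α → Prop)
    (hM : ∀ p, p ∈ M.accepts ↔ ∃ u v, R u v ∧ p = pad u v) (w : List α) :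
    w ∈ (smaller r M).accepts ↔ ∃ u, R u w ∧ List.Shortlex r u w := by
  rw [NFA.mem_accepts]
  constructor
  · rintro ⟨t, ⟨ht1, ht2⟩, ht3⟩
    rw [smaller_eval] at ht3
    obtain ⟨s, hs, os, hos, rfl⟩ := ht3
    have hs' : s = (M.start, Cmp.eq) := hs
    subst hs'
    have h1 : os.zip (w.map some) ∈ M.accepts := ht1
    rw [hM] at h1
    obtain ⟨u, v, hR, hp⟩ := h1
    have e1 : os = u.map some ++ List.replicate (v.length - u.length) none := by
      rw [← pad_fst, ← hp, List.map_fst_zip]
      simp [hos]
    have e2 : w.map some = v.map some ++ List.replicate (u.length - v.length) none := by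
      rw [← pad_snd, ← hp, List.map_snd_zip]
      simp [hos]
    have e3 : w = v := by
      have := congrArg List.reduceOption e2
      rwa [List.reduceOption_append, red_map_some, red_map_some, List.reduceOption_replicate_none,
        List.append_nil] at this
    subst e3
    have e4 : u.length ≤ w.length := by
      have := congrArg List.length e2
      simp at this
      omega
    refine ⟨u, hR, ?_⟩
    rw [← crun_iff r u w e4, ← e1]
    exact ht2
  · rintro ⟨u, hR, hlt⟩
    have e4 : u.length ≤ w.length := by
      rw [List.shortlex_def] at hlt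
      rcases hlt with h | h
      · exact h.le
      · exact h.1.le
    set os := u.map some ++ List.replicate (w.length - u.length) none with hos
    refine ⟨(M.evalFrom M.start (os.zip (w.map some)), crun r Cmp.eq os w), ⟨?_, ?_⟩, ?_⟩
    · have : os.zip (w.map some) ∈ M.accepts := by
        rw [hM]
        refine ⟨u, w, hR, ?_⟩
        unfold pad
        rw [show u.length - w.length = 0 by omega, List.replicate_zero, List.append_nil, hos]
      exact this
    · exact (crun_iff r u w e4).mpr hlt
    · rw [smaller_eval]
      exact ⟨(M.start, Cmp.eq), rfl, os, by simp [hos]; omega, rfl⟩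

end Nfa

section Main

variable {H : Type} [Group H] {α : Type} (μ : α → H)

/-- value of a word -/
abbrev val (w : List α) : H := (w.map μ).prod

theorem exists_order (α : Type) [Fintype α] : ∃ r : α → α → Prop, (∀ a, ¬ r a a) ∧
    (∀ a b, r a b ∨ a = b ∨ r b a) ∧ WellFounded r := by
  classical
  let e := Fintype.equivFin α
  refine ⟨fun a b => e a < e b, fun a => lt_irrefl _, fun a b => ?_, ?_⟩
  · rcases lt_trichotomy (e a) (e b) with h | h | h
    · exact Or.inl h
    · exact Or.inr (Or.inl (e.injective h))
    · exact Or.inr (Or.inr h)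
  · exact InvImage.wf e (wellFounded_lt)

/-- C1: a regular set of unique representatives -/
theorem unique_reps [Fintype α] {σ : Type} [Fintype σ] (W : DFA α σ)
    (hsurj : ∀ g : H, ∃ w, w ∈ W.accepts ∧ val μ w = g) {τ : Type} [Fintype τ]
    (M : DFA (Option α × Option α) τ)
    (hM : ∀ p, p ∈ M.accepts ↔ ∃ u v, (u ∈ W.accepts ∧ v ∈ W.accepts ∧ val μ u = val μ v) ∧
      p = pad u v) :
    ∃ (σ' : Type) (_ : Fintype σ') (W' : DFA α σ'), (∀ w, w ∈ W'.accepts → w ∈ W.accepts) ∧
      (∀ g : H, ∃ w, w ∈ W'.accepts ∧ val μ w = g) ∧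
      ∀ w w', w ∈ W'.accepts → w' ∈ W'.accepts → val μ w = val μ w' → w = w' := by
  classical
  obtain ⟨r, hirr, htri, hwf⟩ := exists_order α
  have hreg : (W.accepts ⊓ ((smaller r M).toDFA.accepts)ᶜ).IsRegular :=
    Language.IsRegular.inf ⟨σ, inferInstance, W, rfl⟩
      (Language.IsRegular.compl (Language.isRegular_iff.mpr
        ⟨Set (τ × Cmp), inferInstance, (smaller r M).toDFA, rfl⟩))
  obtain ⟨σ', hσ', W', hW'⟩ := hreg
  have hmem : ∀ w, w ∈ W'.accepts ↔ w ∈ W.accepts ∧
      ∀ u, u ∈ W.accepts → val μ u = val μ w → ¬ List.Shortlex r u w := by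
    intro w
    rw [hW', NFA.toDFA_correct]
    have h1 := smaller_accepts r M
      (fun u v => u ∈ W.accepts ∧ v ∈ W.accepts ∧ val μ u = val μ v) hM w
    constructor
    · rintro ⟨h2, h3⟩
      refine ⟨h2, fun u hu huw hlt => ?_⟩
      exact h3 (h1.mpr ⟨u, ⟨hu, h2, huw⟩, hlt⟩)
    · rintro ⟨h2, h3⟩
      refine ⟨h2, fun h4 => ?_⟩
      obtain ⟨u, ⟨hu, _, huw⟩, hlt⟩ := h1.mp h4
      exact h3 u hu huw hlt
  refine ⟨σ', hσ', W', fun w hw => ((hmem w).mp hw).1, fun g => ?_, fun w w' hw hw' he => ?_⟩
  · have hwf' := List.Shortlex.wf hwf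
    obtain ⟨w, ⟨hw1, hw2⟩, hmin⟩ := hwf'.has_min {w | w ∈ W.accepts ∧ val μ w = g} (hsurj g)
    refine ⟨w, (hmem w).mpr ⟨hw1, fun u hu huw hlt => ?_⟩, hw2⟩
    exact hmin u ⟨hu, huw.trans hw2⟩ hlt
  · rw [hmem] at hw hw'
    have hT : Std.Trichotomous r := ⟨fun a b h1 h2 => by
      rcases htri a b with h | h | h
      · exact absurd h h1
      · exact h
      · exact absurd h h2⟩
    have := (List.Shortlex.trichotomous (r := r)).trichotomous w w'
    exact this (hw'.2 w hw.1 he) (hw.2 w' hw'.1 he.symm)

/-- C2: the differences of fellow travellers are in a finite set -/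
theorem ft_set {σ : Type} (W : DFA α σ) (x : H) {τ : Type} [Fintype τ]
    (M : DFA (Option α × Option α) τ)
    (hM : ∀ p, p ∈ M.accepts ↔ ∃ u v, (u ∈ W.accepts ∧ v ∈ W.accepts ∧ val μ u * x = val μ v) ∧
      p = pad u v) :
    ∃ F : Set H, F.Finite ∧ ∀ u v, u ∈ W.accepts → v ∈ W.accepts → val μ u * x = val μ v →
      ∀ t : ℕ, (val μ (u.take t))⁻¹ * val μ (v.take t) ∈ F := by
  classical
  let c : τ → List (Option α × Option α) := fun q =>
    if h : ∃ c, M.evalFrom q c ∈ M.accept then h.choose else []
  have hc : ∀ q, (∃ c, M.evalFrom q c ∈ M.accept) → M.evalFrom q (c q) ∈ M.accept := by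
    intro q h
    have : c q = h.choose := dif_pos h
    rw [this]
    exact h.choose_spec
  refine ⟨Set.range (fun q : τ => val μ (pi1 (c q)) * x * (val μ (pi2 (c q)))⁻¹),
    Set.finite_range _, fun u v hu hv huv t => ?_⟩
  have hp : pad u v ∈ M.accepts := (hM _).mpr ⟨u, v, ⟨hu, hv, huv⟩, rfl⟩
  set q := M.evalFrom M.start ((pad u v).take t) with hq
  have hlive : M.evalFrom q ((pad u v).drop t) ∈ M.accept := by
    rw [hq, ← DFA.evalFrom_of_append, List.take_append_drop]
    exact hp
  have h1 := hc q ⟨_, hlive⟩
  have h2 : (pad u v).take t ++ c q ∈ M.accepts := by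
    rw [DFA.mem_accepts]
    show M.evalFrom M.start _ ∈ _
    rw [DFA.evalFrom_of_append]
    exact h1
  obtain ⟨u', v', ⟨_, _, he⟩, hp'⟩ := (hM _).mp h2
  have e1 : u' = u.take t ++ pi1 (c q) := by
    rw [← pi1_take u v t, ← pi1_append, hp', pi1_pad]
  have e2 : v' = v.take t ++ pi2 (c q) := by
    rw [← pi2_take u v t, ← pi2_append, hp', pi2_pad]
  refine ⟨q, ?_⟩
  have e3 : val μ (u.take t) * val μ (pi1 (c q)) * x = val μ (v.take t) * val μ (pi2 (c q)) := by
    rw [e1, e2] at he
    simpa [val, List.map_append, List.prod_append] using he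
  show val μ (pi1 (c q)) * x * (val μ (pi2 (c q)))⁻¹ = (val μ (u.take t))⁻¹ * val μ (v.take t)
  have e4 : val μ (pi1 (c q)) * x =
      (val μ (u.take t))⁻¹ * (val μ (v.take t) * val μ (pi2 (c q))) := by
    rw [← e3]; group
  rw [e4]
  group

/-- C3, first half -/
theorem len_right {σ σ' : Type} [Fintype σ'] (W : DFA α σ) (W' : DFA α σ') (x : H) {τ : Type}
    [Fintype τ] (M : DFA (Option α × Option α) τ)
    (hM : ∀ p, p ∈ M.accepts ↔ ∃ u v, (u ∈ W.accepts ∧ v ∈ W.accepts ∧ val μ u * x = val μ v) ∧
      p = pad u v)
    (hsub : ∀ w, w ∈ W'.accepts → w ∈ W.accepts)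
    (huniq : ∀ w w', w ∈ W'.accepts → w' ∈ W'.accepts → val μ w = val μ w' → w = w')
    (u v : List α) (hu : u ∈ W'.accepts) (hv : v ∈ W'.accepts) (huv : val μ u * x = val μ v) :
    v.length ≤ u.length + Fintype.card τ * Fintype.card σ' := by
  classical
  by_contra hcon
  push Not at hcon
  set K := Fintype.card τ * Fintype.card σ' with hK
  let f : Fin (K + 1) → τ × σ' := fun i =>
    (M.evalFrom M.start ((pad u v).take (u.length + i)), W'.evalFrom W'.start (v.take (u.length + i)))
  obtain ⟨i, j, hij, hf⟩ := Fintype.exists_ne_map_eq_of_card_lt f (by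
    rw [Fintype.card_prod, Fintype.card_fin, ← hK]; omega)
  wlog hlt : i < j generalizing i j
  · exact this j i hij.symm hf.symm (lt_of_le_of_ne (not_lt.mp hlt) hij.symm)
  have hf1 : M.evalFrom M.start ((pad u v).take (u.length + i)) =
      M.evalFrom M.start ((pad u v).take (u.length + j)) := congrArg Prod.fst hf
  have hf2 : W'.evalFrom W'.start (v.take (u.length + i)) =
      W'.evalFrom W'.start (v.take (u.length + j)) := congrArg Prod.snd hf
  have hp : pad u v ∈ M.accepts := (hM _).mpr ⟨u, v, ⟨hsub u hu, hsub v hv, huv⟩, rfl⟩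
  have hp2 : (pad u v).take (u.length + i) ++ (pad u v).drop (u.length + j) ∈ M.accepts := by
    rw [DFA.mem_accepts, DFA.eval, DFA.evalFrom_of_append, hf1, ← DFA.evalFrom_of_append, List.take_append_drop]
    exact hp
  have hv2 : v.take (u.length + i) ++ v.drop (u.length + j) ∈ W'.accepts := by
    rw [DFA.mem_accepts, DFA.eval, DFA.evalFrom_of_append, hf2, ← DFA.evalFrom_of_append, List.take_append_drop]
    exact hv
  obtain ⟨u', v', ⟨_, _, he⟩, hp'⟩ := (hM _).mp hp2
  have e1 : u' = u := by
    have : pi1 ((pad u v).take (u.length + i) ++ (pad u v).drop (u.length + j)) = u' := by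
      rw [hp', pi1_pad]
    rw [pi1_append, pi1_take, pi1_drop] at this
    rw [← this, List.take_of_length_le (by omega), List.drop_of_length_le (by omega),
      List.append_nil]
  have e2 : v' = v.take (u.length + i) ++ v.drop (u.length + j) := by
    have : pi2 ((pad u v).take (u.length + i) ++ (pad u v).drop (u.length + j)) = v' := by
      rw [hp', pi2_pad]
    rw [pi2_append, pi2_take, pi2_drop] at this
    exact this.symm
  rw [e1, e2] at he
  have e3 := huniq _ _ hv2 hv (he.symm.trans huv)
  have e4 := congrArg List.length e3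
  have hj := j.isLt
  have hij' : (i : ℕ) < (j : ℕ) := hlt
  rw [List.length_append, List.length_take, List.length_drop] at e4
  omega

/-- C3, second half -/
theorem len_left {σ σ' : Type} [Fintype σ'] (W : DFA α σ) (W' : DFA α σ') (x : H) {τ : Type}
    [Fintype τ] (M : DFA (Option α × Option α) τ)
    (hM : ∀ p, p ∈ M.accepts ↔ ∃ u v, (u ∈ W.accepts ∧ v ∈ W.accepts ∧ val μ u * x = val μ v) ∧
      p = pad u v)
    (hsub : ∀ w, w ∈ W'.accepts → w ∈ W.accepts)
    (huniq : ∀ w w', w ∈ W'.accepts → w' ∈ W'.accepts → val μ w = val μ w' → w = w')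
    (u v : List α) (hu : u ∈ W'.accepts) (hv : v ∈ W'.accepts) (huv : val μ u * x = val μ v) :
    u.length ≤ v.length + Fintype.card τ * Fintype.card σ' := by
  classical
  by_contra hcon
  push Not at hcon
  set K := Fintype.card τ * Fintype.card σ' with hK
  let f : Fin (K + 1) → τ × σ' := fun i =>
    (M.evalFrom M.start ((pad u v).take (v.length + i)), W'.evalFrom W'.start (u.take (v.length + i)))
  obtain ⟨i, j, hij, hf⟩ := Fintype.exists_ne_map_eq_of_card_lt f (by
    rw [Fintype.card_prod, Fintype.card_fin, ← hK]; omega)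
  wlog hlt : i < j generalizing i j
  · exact this j i hij.symm hf.symm (lt_of_le_of_ne (not_lt.mp hlt) hij.symm)
  have hf1 : M.evalFrom M.start ((pad u v).take (v.length + i)) =
      M.evalFrom M.start ((pad u v).take (v.length + j)) := congrArg Prod.fst hf
  have hf2 : W'.evalFrom W'.start (u.take (v.length + i)) =
      W'.evalFrom W'.start (u.take (v.length + j)) := congrArg Prod.snd hf
  have hp : pad u v ∈ M.accepts := (hM _).mpr ⟨u, v, ⟨hsub u hu, hsub v hv, huv⟩, rfl⟩
  have hp2 : (pad u v).take (v.length + i) ++ (pad u v).drop (v.length + j) ∈ M.accepts := by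
    rw [DFA.mem_accepts, DFA.eval, DFA.evalFrom_of_append, hf1, ← DFA.evalFrom_of_append, List.take_append_drop]
    exact hp
  have hu2 : u.take (v.length + i) ++ u.drop (v.length + j) ∈ W'.accepts := by
    rw [DFA.mem_accepts, DFA.eval, DFA.evalFrom_of_append, hf2, ← DFA.evalFrom_of_append, List.take_append_drop]
    exact hu
  obtain ⟨u', v', ⟨_, _, he⟩, hp'⟩ := (hM _).mp hp2
  have e1 : v' = v := by
    have : pi2 ((pad u v).take (v.length + i) ++ (pad u v).drop (v.length + j)) = v' := by
      rw [hp', pi2_pad]
    rw [pi2_append, pi2_take, pi2_drop] at this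
    rw [← this, List.take_of_length_le (by omega), List.drop_of_length_le (by omega),
      List.append_nil]
  have e2 : u' = u.take (v.length + i) ++ u.drop (v.length + j) := by
    have : pi1 ((pad u v).take (v.length + i) ++ (pad u v).drop (v.length + j)) = u' := by
      rw [hp', pi1_pad]
    rw [pi1_append, pi1_take, pi1_drop] at this
    exact this.symm
  rw [e1, e2] at he
  have e3 := huniq _ _ hu2 hu (mul_right_cancel (he.trans huv.symm))
  have e4 := congrArg List.length e3
  have hj := j.isLt
  have hij' : (i : ℕ) < (j : ℕ) := hlt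
  rw [List.length_append, List.length_take, List.length_drop] at e4
  omega

end Main

theorem C123 : C123_Stmt := by
  classical
  intro H _ h
  obtain ⟨α, hα, μ, σ, hσ, W, hsurj, hM⟩ := h
  obtain ⟨τ₀, hτ₀, M₀, hM₀⟩ := hM none
  have hM0' : ∀ p, p ∈ M₀.accepts ↔ ∃ u v, (u ∈ W.accepts ∧ v ∈ W.accepts ∧
      val μ u = val μ v) ∧ p = pad u v := by
    intro p
    rw [hM₀]
    simp only [Option.map_none, Option.getD_none, mul_one]
    constructor
    · rintro ⟨u, v, h1, h2, h3, h4⟩
      exact ⟨u, v, ⟨h1, h2, h4⟩, h3⟩
    · rintro ⟨u, v, ⟨h1, h2, h4⟩, h3⟩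
      exact ⟨u, v, h1, h2, h3, h4⟩
  obtain ⟨σ', hσ', W', hsub, hsurj', huniq⟩ := unique_reps μ W hsurj M₀ hM0'
  have hMa : ∀ a : α, ∃ (τ : Type) (_ : Fintype τ) (M : DFA (Option α × Option α) τ),
      ∀ p, p ∈ M.accepts ↔ ∃ u v, (u ∈ W.accepts ∧ v ∈ W.accepts ∧
        val μ u * μ a = val μ v) ∧ p = pad u v := by
    intro a
    obtain ⟨τ, hτ, M, hM'⟩ := hM (some a)
    refine ⟨τ, hτ, M, fun p => ?_⟩
    rw [hM']
    simp only [Option.map_some, Option.getD_some]
    constructor
    · rintro ⟨u, v, h1, h2, h3, h4⟩
      exact ⟨u, v, ⟨h1, h2, h4⟩, h3⟩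
    · rintro ⟨u, v, ⟨h1, h2, h4⟩, h3⟩
      exact ⟨u, v, h1, h2, h3, h4⟩
  choose τ hτ M hM' using hMa
  have hF := fun a => @ft_set H _ α μ σ W (μ a) (τ a) (hτ a) (M a) (hM' a)
  choose F hFfin hF' using hF
  refine ⟨α, hα, μ, σ', hσ', W', ⋃ a, F a, ∑ a, @Fintype.card (τ a) (hτ a) * Fintype.card σ',
    Set.finite_iUnion hFfin, hsurj', huniq, fun a w w' hw hw' he => ⟨fun t => ?_, ?_, ?_⟩⟩
  · exact Set.mem_iUnion.mpr ⟨a, hF' a w w' (hsub w hw) (hsub w' hw') he t⟩
  · have h1 := @len_right H _ α μ σ σ' hσ' W W' (μ a) (τ a) (hτ a) (M a) (hM' a) hsub huniq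
      w w' hw hw' he
    have h2 := Finset.single_le_sum (f := fun a => @Fintype.card (τ a) (hτ a) * Fintype.card σ')
      (fun _ _ => Nat.zero_le _) (Finset.mem_univ a)
    omega
  · have h1 := @len_left H _ α μ σ σ' hσ' W W' (μ a) (τ a) (hτ a) (M a) (hM' a) hsub huniq
      w w' hw hw' he
    have h2 := Finset.single_le_sum (f := fun a => @Fintype.card (τ a) (hτ a) * Fintype.card σ')
      (fun _ _ => Nat.zero_le _) (Finset.mem_univ a)
    omega

end H57.QI
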