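import Pool.Agent.Lib_helper57.QI.Defs

/-!
# Module C of the quasi-isometry project: statement of the language part (C1-C3)
-/

set_option autoImplicit false

namespace H57.QI

/-- An automatic group has a finite automaton with exactly one accepted word for every element,
with the synchronous fellow traveller property for words whose values differ by a letter, and with
lengths of such words at bounded distance. -/
def C123_Stmt : Prop := ∀ (H : Type) [Group H], IsAut H →
  ∃ (α : Type) (_ : Fintype α) (μ : α → H) (σ : Type) (_ : Fintype σ) (W : DFA α σ)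
    (F : Set H) (k : ℕ), F.Finite ∧
    (∀ g : H, ∃ w, w ∈ W.accepts ∧ (w.map μ).prod = g) ∧
    (∀ w w', w ∈ W.accepts → w' ∈ W.accepts → (w.map μ).prod = (w'.map μ).prod → w = w') ∧
    ∀ (a : α) (w w' : List α), w ∈ W.accepts → w' ∈ W.accepts →
      (w.map μ).prod * μ a = (w'.map μ).prod →
      (∀ t : ℕ, ((w.take t).map μ).prod⁻¹ * ((w'.take t).map μ).prod ∈ F) ∧
      w'.length ≤ w.length + k ∧ w.length ≤ w'.length + k

end H57.QI
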