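import Pool.Agent.Lib_helper57.QI.EDefs
import Pool.Agent.Lib_helper96.QI.E0a

/-!
# Basic lemmas for module E : the tree
-/

set_option autoImplicit false

namespace H57.QI

variable {H : Type} [Group H]

namespace Geo

variable (D : Geo H)

/-! ### the tree -/

theorem L_inv_mul_comm (a b : H) : D.L (a⁻¹ * b) = D.L (b⁻¹ * a) := by
  have h : (a⁻¹ * b)⁻¹ = b⁻¹ * a := by group
  rw [← h, D.L_inv]

theorem L_tri (a b c : H) : D.L (a⁻¹ * c) ≤ D.L (a⁻¹ * b) + D.L (b⁻¹ * c) := by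
  have h : a⁻¹ * c = (a⁻¹ * b) * (b⁻¹ * c) := by group
  rw [h]
  exact D.L_mul _ _

/-- four point condition with base point `w` -/
theorem four (w a b c : H) :
    min ((D.L (w⁻¹ * a) : ℤ) + D.L (w⁻¹ * b) - D.L (a⁻¹ * b))
      ((D.L (w⁻¹ * b) : ℤ) + D.L (w⁻¹ * c) - D.L (b⁻¹ * c)) ≤
    (D.L (w⁻¹ * a) : ℤ) + D.L (w⁻¹ * c) - D.L (a⁻¹ * c) := by
  have h := D.L_hyp (w⁻¹ * a) (w⁻¹ * b) (w⁻¹ * c)
  have h1 : (w⁻¹ * a)⁻¹ * (w⁻¹ * b) = a⁻¹ * b := by group
  have h2 : (w⁻¹ * b)⁻¹ * (w⁻¹ * c) = b⁻¹ * c := by group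
  have h3 : (w⁻¹ * a)⁻¹ * (w⁻¹ * c) = a⁻¹ * c := by group
  rw [h1, h2, h3] at h
  exact h

/-- parity: `d(a,b) + d(b,c) + d(a,c)` is even -/
theorem parity (a b c : H) : Even (D.L (a⁻¹ * b) + D.L (b⁻¹ * c) + D.L (a⁻¹ * c)) := by
  have h := D.L_even (a⁻¹ * b) (b⁻¹ * c)
  have h1 : a⁻¹ * b * (b⁻¹ * c) = a⁻¹ * c := by group
  rwa [h1] at h

/-- distance of two points of the segment `[1, g]` -/
theorem seg_dist {g h h' : H} (h1 : D.L h + D.L (h⁻¹ * g) = D.L g)
    (h2 : D.L h' + D.L (h'⁻¹ * g) = D.L g) (h3 : D.L h ≤ D.L h') :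
    D.L (h⁻¹ * h') = D.L h' - D.L h := by
  have h4 := D.L_hyp h g h'
  rw [D.L_inv_mul_comm g h'] at h4
  have h5 := D.L_mul h (h⁻¹ * h')
  rw [mul_inv_cancel_left] at h5
  omega

/-- two points of the segment `[1, g]` at the same distance coincide -/
theorem seg_unique {g h h' : H} (h1 : D.L h + D.L (h⁻¹ * g) = D.L g)
    (h2 : D.L h' + D.L (h'⁻¹ * g) = D.L g) (h3 : D.L h = D.L h') : D.L (h⁻¹ * h') = 0 := by
  rw [D.seg_dist h1 h2 h3.le, h3, Nat.sub_self]

/-- a path with steps of length at most one visits all vertices of the segment `[1, g]` -/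
theorem visit (l : List H) (hl : ∀ s ∈ l, D.L s ≤ 1) (h : H)
    (hh : D.L h + D.L (h⁻¹ * l.prod) = D.L l.prod) :
    ∃ t ≤ l.length, D.L ((l.take t).prod⁻¹ * h) = 0 := by
  classical
  by_contra hcon
  push Not at hcon
  have key : ∀ t ≤ l.length,
      D.L ((l.take t).prod) < D.L h + D.L (h⁻¹ * (l.take t).prod) := by
    intro t
    induction t with
    | zero =>
      intro _
      have h0 := hcon 0 (Nat.zero_le _)
      simp only [List.take_zero, List.prod_nil, inv_one, one_mul, mul_one] at h0 ⊢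
      rw [D.L_one]
      omega
    | succ t ih =>
      intro ht
      have ht' : t < l.length := by omega
      have ih' := ih ht'.le
      set v := (l.take t).prod with hv
      have h3 : (l.take (t + 1)).prod = v * l[t] := by
        rw [List.take_succ_eq_append_getElem ht', List.prod_append, List.prod_singleton]
      rw [h3]
      set u := v * l[t] with hu
      have h4 := D.four h 1 v u
      have h5 : v⁻¹ * u = l[t] := by rw [hu]; group
      have h6 := hl _ (List.getElem_mem ht')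
      have h7 := hcon t ht'.le
      rw [← hv] at h7
      have h8 := hcon (t + 1) ht
      rw [h3] at h8
      rw [D.L_inv_mul_comm] at h7 h8
      have h9 := D.L_inv h
      rw [h5] at h4
      simp only [mul_one, inv_one, one_mul] at h4
      rw [h9] at h4
      omega
  have h1 := key l.length le_rfl
  rw [List.take_length] at h1
  omega

/-- tree fact: an isometry `a` moving both ends of `[1, v]` a little maps the middle of `[1, v]`
into `[1, v]`, moving it a little -/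
theorem tree_fact {a v m : H} (hm : D.L m + D.L (m⁻¹ * v) = D.L v) (h1 : D.L a < D.L m)
    (h2 : D.L (v⁻¹ * (a * v)) < D.L (m⁻¹ * v)) :
    D.L (a * m) + D.L ((a * m)⁻¹ * v) = D.L v ∧ D.L (m⁻¹ * (a * m)) ≤ D.L a := by
  have e1 := D.four (a * m) a 1 (a * v)
  have e2 := D.four (a * m) 1 v (a * v)
  have r1 : (a * m)⁻¹ * a = m⁻¹ := by group
  have r2 : (a * m)⁻¹ * (a * v) = m⁻¹ * v := by group
  have r3 : a⁻¹ * (a * v) = v := by group
  rw [r1, r2, r3] at e1
  rw [r2] at e2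
  simp only [mul_one, inv_one, one_mul] at e1 e2
  have i1 := D.L_inv m
  have i2 := D.L_inv a
  have i3 := D.L_inv (a * m)
  rw [i1, i2, i3] at e1
  rw [i3] at e2
  have t1 := D.L_mul (a * m) ((a * m)⁻¹ * v)
  rw [mul_inv_cancel_left] at t1
  have hs : D.L (a * m) + D.L ((a * m)⁻¹ * v) = D.L v := by
    have r4 : a * m * (m⁻¹ * v) = a * v := by group
    have t2 := D.L_mul (a * m) (m⁻¹ * v)
    rw [r4] at t2
    omega
  refine ⟨hs, ?_⟩
  have t3 := D.L_mul a m
  have t4 := D.L_mul a⁻¹ (a * m)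
  rw [inv_mul_cancel_left, i2] at t4
  rcases le_total (D.L m) (D.L (a * m)) with hle | hle
  · rw [D.seg_dist hm hs hle]
    omega
  · rw [D.L_inv_mul_comm, D.seg_dist hs hm hle]
    omega

/-- heights along an ascending segment -/
theorem up_seg {g h : H} (hg : D.e g = D.L g) (hh : D.L h + D.L (h⁻¹ * g) = D.L g) :
    D.e h = D.L h ∧ D.e (h⁻¹ * g) = D.L (h⁻¹ * g) := by
  have h1 := D.e_mul h (h⁻¹ * g)
  rw [mul_inv_cancel_left] at h1
  have h2 := (abs_le.1 (D.e_le h)).2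
  have h3 := (abs_le.1 (D.e_le (h⁻¹ * g))).2
  omega

theorem up_mul {g h : H} (hg : D.e g = D.L g) (hh : D.e h = D.L h) :
    D.e (g * h) = D.L (g * h) ∧ D.L (g * h) = D.L g + D.L h := by
  have h1 := D.e_mul g h
  have h2 := (abs_le.1 (D.e_le (g * h))).2
  have h3 := D.L_mul g h
  omega

/-- any two elements are joined by a chain of bounded steps -/
theorem chain : ∃ κ : ℝ, 0 < κ ∧ ∀ g h : H, ∃ (n : ℕ) (f : ℕ → H), f 0 = g ∧ f n = h ∧
    (n : ℝ) ≤ κ * (D.N (g⁻¹ * h) + 1) ∧ ∀ i < n, D.N ((f i)⁻¹ * f (i + 1)) ≤ κ := by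
  obtain ⟨C, hC⟩ := D.gen
  refine ⟨C + 1, by positivity, fun g h => ?_⟩
  obtain ⟨l, hl, hlen, hs⟩ := hC (g⁻¹ * h)
  refine ⟨l.length, fun i => g * (l.take i).prod, by simp, ?_, ?_, ?_⟩
  · simp [hl]
  · refine hlen.trans ?_
    have h1 : ‖D.x (g⁻¹ * h)‖ + D.L (g⁻¹ * h) = D.N (g⁻¹ * h) := rfl
    rw [h1]
    have h2 := D.N_nonneg (g⁻¹ * h)
    nlinarith
  · intro i hi
    have h3 : (l.take (i + 1)).prod = (l.take i).prod * l[i] := by
      rw [List.take_succ_eq_append_getElem hi, List.prod_append, List.prod_singleton]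
    have h4 : (g * (l.take i).prod)⁻¹ * (g * (l.take (i + 1)).prod) = l[i] := by
      rw [h3]; group
    simp only [h4]
    have h5 := hs _ (List.getElem_mem hi)
    have h6 : D.N l[i] = ‖D.x l[i]‖ + D.L l[i] := rfl
    rw [h6]
    linarith

end Geo

end H57.QI
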