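import Pool.Agent.Lib_helper41.QI.E0b
import Pool.Agent.Lib_helper57.QI.E0c

/-!
# Lemma K
-/

set_option autoImplicit false

namespace H57.QI

variable {H : Type} [Group H]

namespace EK

/-- if many points `g ^ (-i) Z` lie in a finite set then `Z` is the centre of `g` -/
theorem fix_of_finite (D : Geo H) {g : H} (hg : D.e g ≠ 0) (Z : ℂ) (F : Finset ℂ) (n : ℕ)
    (hn : F.card ≤ n) (h : ∀ i ≤ n, D.act (g ^ i)⁻¹ Z ∈ F) : Z = D.cen g := by
  classical
  obtain ⟨i, hi, j, hj, hij, heq⟩ := Finset.exists_ne_map_eq_of_card_lt_of_maps_to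
    (s := Finset.range (n + 1)) (t := F) (f := fun i => D.act (g ^ i)⁻¹ Z)
    (by rw [Finset.card_range]; omega)
    (fun i hi => h i (by
      have := Finset.mem_range.1 (Finset.mem_coe.1 hi)
      omega))
  have h1 : D.act (g ^ ((i : ℤ) - j)) Z = Z := by
    have h2 : g ^ ((i : ℤ) - j) = g ^ i * (g ^ j)⁻¹ := by
      rw [zpow_sub, zpow_natCast, zpow_natCast]
    rw [h2, D.act_mul, ← heq, D.act_act_inv]
  have hne : (i : ℤ) - j ≠ 0 := by omega
  have he : D.e (g ^ ((i : ℤ) - j)) ≠ 0 := by
    rw [D.e_zpow]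
    exact mul_ne_zero hne hg
  rw [D.eq_cen he h1, D.cen_zpow hg hne]

variable {D : Geo H} (A : Auto D)

/-- transport of centres -/
theorem transport {s : A.Q} (hs : A.live s) (hns : ¬ A.NiceRoot s) {z : List A.S}
    (hz : A.st s z = s) (hze : D.e (A.val z) ≠ 0) {V : List A.S} (hV : A.sc s (A.st s V))
    {z' : List A.S} (hz' : A.st (A.st s V) z' = A.st s V) (hze' : D.e (A.val z') ≠ 0) :
    D.act (A.val V) (D.cen (A.val z')) = D.cen (A.val z) := by
  obtain ⟨-, ⟨V', hV'⟩⟩ := hV
  have key : ∀ i : ℕ, D.e (A.val V) + D.e (A.val V') + i * D.e (A.val z') ≠ 0 →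
      D.act (A.val V * A.val z' ^ i * A.val V') (D.cen (A.val z)) = D.cen (A.val z) := by
    intro i hi
    have h1 : A.st s (V ++ rep z' i ++ V') = s := by
      rw [A.st_append, A.st_append, A.st_rep hz', hV']
    have h2 : A.val (V ++ rep z' i ++ V') = A.val V * A.val z' ^ i * A.val V' := by
      rw [A.val_append, A.val_append, A.val_rep]
    have h3 : D.e (A.val (V ++ rep z' i ++ V')) ≠ 0 := by
      rw [h2, D.e_mul, D.e_mul, D.e_pow]
      intro h; apply hi; linarith
    have h4 : D.cen (A.val z) = D.cen (A.val (V ++ rep z' i ++ V')) := by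
      by_contra hne
      exact hns ⟨hs, z, _, hz, h1, hze, h3, hne⟩
    rw [← h2]
    conv_lhs => rw [h4]
    rw [D.act_cen h3, ← h4]
  obtain ⟨i, hi1, hi2⟩ : ∃ i : ℕ, D.e (A.val V) + D.e (A.val V') + i * D.e (A.val z') ≠ 0 ∧
      D.e (A.val V) + D.e (A.val V') + ((i + 1 : ℕ) : ℤ) * D.e (A.val z') ≠ 0 := by
    by_cases h : D.e (A.val V) + D.e (A.val V') + (0 : ℕ) * D.e (A.val z') ≠ 0 ∧
      D.e (A.val V) + D.e (A.val V') + ((0 + 1 : ℕ) : ℤ) * D.e (A.val z') ≠ 0
    · exact ⟨0, h⟩
    · refine ⟨2, ?_, ?_⟩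
      · intro h2
        apply h
        push_cast at h2 ⊢
        constructor
        · intro h3; apply hze'; omega
        · intro h3; apply hze'; omega
      · intro h2
        apply h
        push_cast at h2 ⊢
        constructor
        · intro h3; apply hze'; omega
        · intro h3; apply hze'; omega
  have h1 := key i hi1
  have h2 := key (i + 1) hi2
  set c := D.cen (A.val z) with hc
  have h3 : A.val V * A.val z' ^ (i + 1) * A.val V' =
      A.val V * A.val z' * (A.val V)⁻¹ * (A.val V * A.val z' ^ i * A.val V') := by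
    rw [pow_succ']; group
  rw [h3, D.act_mul, h1, D.act_mul, D.act_mul] at h2
  have h4 : D.act (A.val z') (D.act (A.val V)⁻¹ c) = D.act (A.val V)⁻¹ c := by
    conv_rhs => rw [← h2]
    rw [D.act_inv_act]
  rw [← D.eq_cen hze' h4, D.act_act_inv]

theorem visit (V : List A.S) (h : H)
    (hh : D.L h + D.L (h⁻¹ * A.val V) = D.L (A.val V)) :
    ∃ t ≤ V.length, D.L ((A.val (V.take t))⁻¹ * h) = 0 := by
  obtain ⟨t, ht, h1⟩ := D.visit (V.map A.mu) (by
    intro s hs
    obtain ⟨a, _, rfl⟩ := List.mem_map.1 hs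
    exact A.mu_L a) h hh
  rw [List.length_map] at ht
  have h2 : ((V.map A.mu).take t).prod = A.val (V.take t) := by
    rw [Auto.val, List.map_take]
  rw [h2] at h1
  exact ⟨t, ht, h1⟩

/-- no backtracking after a nice state -/
theorem gromov {C : ℝ} (hC : ∀ (q : A.Q) (V : List A.S), A.Nice q → A.coacc (A.st q V) →
    (V.length : ℝ) ≤ C * (1 + D.L (A.val V))) {s : A.Q} (hs : A.Nice s) (Y V : List A.S)
    (hV : A.coacc (A.st s (Y ++ V))) :
    (D.L (A.val Y) : ℝ) + D.L (A.val V) ≤ D.L (A.val (Y ++ V)) + 2 * C := by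
  have hev := D.L_even (A.val Y) (A.val V)
  rw [A.val_append]
  set a := A.val Y with ha
  set b := A.val V with hb
  have t0 := D.L_mul a b
  have t1 := D.L_mul a⁻¹ (a * b)
  rw [inv_mul_cancel_left, D.L_inv] at t1
  have t2 := D.L_mul (a * b) b⁻¹
  rw [mul_inv_cancel_right, D.L_inv] at t2
  obtain ⟨m, hm⟩ : ∃ m : ℕ, 2 * m + D.L (a * b) = D.L a + D.L b := by
    obtain ⟨r, hr⟩ := hev
    exact ⟨r - D.L (a * b), by omega⟩
  obtain ⟨h, hh1, hh2⟩ := D.L_geod b m (by omega)
  have hh3 := D.L_hyp h b a⁻¹
  have hh4 : b⁻¹ * a⁻¹ = (a * b)⁻¹ := by group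
  rw [hh4, D.L_inv, D.L_inv] at hh3
  have hh5 := D.L_mul h (h⁻¹ * a⁻¹)
  rw [mul_inv_cancel_left, D.L_inv] at hh5
  have hh6 : D.L (h⁻¹ * a⁻¹) + m = D.L a := by omega
  obtain ⟨t, ht, hvt⟩ := visit A V h (by rw [← hb]; omega)
  have hah : D.L (a * h) + m = D.L a := by
    have : (a * h)⁻¹ = h⁻¹ * a⁻¹ := by group
    rw [← D.L_inv, this]; exact hh6
  obtain ⟨r, hr, hvr⟩ := visit A Y (a * h) (by
    have : (a * h)⁻¹ * a = h⁻¹ := by group
    rw [← ha, this, D.L_inv]; omega)
  have hY : A.val (Y.take r) * A.val (Y.drop r) = a := by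
    rw [ha, ← A.val_append, List.take_append_drop]
  have hZ : D.L (A.val (Y.drop r ++ V.take t)) = 0 := by
    rw [A.val_append]
    have e1 : A.val (Y.drop r) * A.val (V.take t) =
        ((A.val (Y.take r))⁻¹ * (a * h)) * ((A.val (V.take t))⁻¹ * h)⁻¹ := by
      rw [← hY]; group
    rw [e1]
    exact D.L0_mul hvr (D.L0_inv hvt)
  have hnice : A.Nice (A.st s (Y.take r)) := by
    apply A.Nice_st hs
    apply A.coacc_take
    apply A.coacc_of_st (V := V)
    rw [← A.st_append]; exact hV
  have hco : A.coacc (A.st (A.st s (Y.take r)) (Y.drop r ++ V.take t)) := by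
    rw [A.st_append, A.take_append_drop_st]
    apply A.coacc_take
    rw [← A.st_append]; exact hV
  have h1 := hC _ _ hnice hco
  rw [hZ, List.length_append, List.length_take, min_eq_left ht] at h1
  push_cast at h1
  have h2 : m ≤ t := by
    have e1 : D.L h = D.L (A.val (V.take t)) := by
      have e2 : h = A.val (V.take t) * ((A.val (V.take t))⁻¹ * h) := by group
      conv_lhs => rw [e2]
      rw [D.L_mul_P hvt]
    have e3 := A.L_val_le (V.take t)
    rw [List.length_take, min_eq_left ht] at e3
    omega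
  have h3 : (m : ℝ) ≤ t := by exact_mod_cast h2
  have h4 : (0 : ℝ) ≤ (Y.drop r).length := Nat.cast_nonneg _
  have h5 : (2 * m + D.L (a * b) : ℝ) = D.L a + D.L b := by exact_mod_cast hm
  linarith

/-- a non-increasing sequence with few values is constant at some step -/
theorem exists_const (f : ℕ → ℕ) (n : ℕ) (h0 : f 0 ≤ n) (hn : 0 < f n)
    (hf : ∀ j < n, f (j + 1) ≤ f j) : ∃ j < n, f (j + 1) = f j := by
  by_contra hcon
  push Not at hcon
  have key : ∀ j ≤ n, f j + j ≤ f 0 := by
    intro j
    induction j with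
    | zero => intro _; omega
    | succ j ih =>
      intro hj
      have h1 := ih (by omega)
      have h2 := hf j (by omega)
      have h3 := hcon j (by omega)
      omega
  have := key n le_rfl
  omega

theorem take_of_append {S : Type} {p u r : List S} {t : ℕ} (h : p = u ++ r) (ht : t = u.length) :
    p.take t = u := by
  rw [h]
  exact List.take_left' ht.symm

end EK

open EK in
theorem lemK {D : Geo H} (A : Auto D) (hH : A.LemH) (hR : A.LemR) : A.LemK := by
  classical
  obtain ⟨CH, hCH⟩ := hH
  obtain ⟨C, hC0, hC⟩ := hR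
  have hu : ∀ p : A.Q, ∃ u : List A.S, A.acc p → A.st A.q0 u = p := by
    intro p
    by_cases h : A.acc p
    · obtain ⟨u, hu⟩ := h
      exact ⟨u, fun _ => hu⟩
    · exact ⟨[], fun h' => absurd h' h⟩
  choose u hu using hu
  have hlz : ∀ p : A.Q, ∃ z : List A.S, A.Vert p → A.st p z = p ∧ D.e (A.val z) ≠ 0 := by
    intro p
    by_cases h : A.Vert p
    · obtain ⟨_, z, hz⟩ := h
      exact ⟨z, fun _ => hz⟩
    · exact ⟨[], fun h' => absurd h' h⟩
  choose lz hlz using hlz
  refine ⟨∑ s : A.Q, (u s).length + ⌈C⌉₊, fun K B p hp => ?_⟩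
  obtain ⟨hpc, s, X, hs, hX⟩ := hp
  obtain ⟨hsl, A1, A2, hA1, hA2, he1, he2, hcen⟩ := id hs
  have hsN : A.Nice s := A.NiceRoot_Nice hs
  have hus := hu s hsl.1
  -- the finite set
  obtain ⟨F, hF⟩ : ∃ F : Finset ℂ, ∀ (y : H) (q : A.Q), D.N y ≤ K →
      D.act y (D.cen (A.val (lz q))) ∈ F := by
    refine ⟨((D.finite_ball K).toFinset ×ˢ (Finset.univ : Finset A.Q)).image
      (fun yq => D.act yq.1 (D.cen (A.val (lz yq.2)))), fun y q hy => ?_⟩
    refine Finset.mem_image.2 ⟨(y, q), ?_, rfl⟩
    rw [Finset.mem_product]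
    exact ⟨(Set.Finite.mem_toFinset _).2 hy, Finset.mem_univ _⟩
  obtain ⟨n, hn1, hn2⟩ : ∃ n : ℕ, F.card ≤ n ∧ (CH : ℝ) + 2 * K < n := by
    obtain ⟨n', hn'⟩ := exists_nat_gt ((CH : ℝ) + 2 * K)
    refine ⟨max F.card n', le_max_left _ _, hn'.trans_le ?_⟩
    exact_mod_cast le_max_right _ _
  obtain ⟨Mm, hMm⟩ := exists_nat_gt (C * (1 + (B + (u s).length)))
  set Bk : List A.S := rep A1 n ++ rep A2 n with hBk
  have hBks : A.st s Bk = s := by rw [hBk, A.st_append, A.st_rep hA1, A.st_rep hA2]
  set qn := Fintype.card A.Q with hqn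
  set P1 : List A.S := u s ++ rep Bk qn with hP1
  set Y1 : List A.S := rep A1 Mm ++ X with hY1
  have hP1s : A.st A.q0 P1 = s := by rw [hP1, A.st_append, hus, A.st_rep hBks]
  have hY1s : A.st s Y1 = p := by rw [hY1, A.st_append, A.st_rep hA1, hX]
  have hA1len : 1 ≤ A1.length := by
    rcases Nat.eq_zero_or_pos A1.length with h0 | h0
    · exfalso
      rw [List.length_eq_zero_iff] at h0
      rw [h0, A.val_nil, D.e_one] at he1
      exact he1 rfl
    · exact h0
  have hY1len : Mm ≤ Y1.length := by
    rw [hY1, List.length_append, length_rep]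
    nlinarith
  refine ⟨P1 ++ Y1, P1.length, ?_, ?_, ?_, ?_, ?_⟩
  · rw [A.st_append, hP1s, hY1s]
  · exact (List.prefix_append P1 Y1).length_le
  · -- (i)
    intro t ht V hV
    have e1 : (P1 ++ Y1).take t = P1.take t := by
      rw [List.take_append_of_le_length ht]
    have e2 : (A.val (P1.take t))⁻¹ * A.val (P1 ++ Y1 ++ V) =
        A.val (P1.drop t) * A.val (Y1 ++ V) := by
      have e3 : A.val P1 = A.val (P1.take t) * A.val (P1.drop t) := by
        rw [← A.val_append, List.take_append_drop]
      rw [List.append_assoc, A.val_append P1, e3]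
      group
    rw [e1, e2]
    rcases le_or_gt (u s).length t with htu | htu
    · have e3 : A.st A.q0 (P1.take t) = A.st s ((rep Bk qn).take (t - (u s).length)) := by
        rw [hP1, List.take_append, A.st_append, List.take_of_length_le htu, hus]
      have hco : A.coacc (A.st (A.st A.q0 (P1.take t)) (P1.drop t ++ (Y1 ++ V))) := by
        rw [A.st_append, A.take_append_drop_st, hP1s, A.st_append, hY1s]
        exact hV
      have hni : A.Nice (A.st A.q0 (P1.take t)) := by
        have h1 : A.coacc (A.st A.q0 (P1.take t)) := A.coacc_of_st hco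
        rw [e3] at h1 ⊢
        exact A.Nice_st hsN h1
      have h1 := hC _ _ hni hco
      rw [A.val_append] at h1
      rw [List.length_append, List.length_append] at h1
      push_cast at h1
      have h2 : (Mm : ℝ) ≤ Y1.length := by exact_mod_cast hY1len
      have h3 : (0 : ℝ) ≤ (P1.drop t).length := Nat.cast_nonneg _
      have h4 : (0 : ℝ) ≤ V.length := Nat.cast_nonneg _
      have h5 : (0 : ℝ) ≤ (u s).length := Nat.cast_nonneg _
      by_contra hlt
      push Not at hlt
      have h6 : (D.L (A.val (P1.drop t) * A.val (Y1 ++ V)) : ℝ) ≤ B + (u s).length := by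
        have : (D.L (A.val (P1.drop t) * A.val (Y1 ++ V)) : ℝ) ≤ B := by exact_mod_cast hlt.le
        linarith
      have h7 : C * (1 + D.L (A.val (P1.drop t) * A.val (Y1 ++ V))) ≤
          C * (1 + (B + (u s).length)) := by
        apply mul_le_mul_of_nonneg_left _ hC0
        linarith
      linarith
    · have e3 : P1.drop t = (u s).drop t ++ rep Bk qn := by
        rw [hP1, List.drop_append_of_le_length htu.le]
      have e4 : A.val (P1.drop t) * A.val (Y1 ++ V) =
          A.val ((u s).drop t) * A.val (rep Bk qn ++ (Y1 ++ V)) := by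
        rw [e3, A.val_append, A.val_append (rep Bk qn)]
        group
      have hco : A.coacc (A.st s (rep Bk qn ++ (Y1 ++ V))) := by
        rw [A.st_append, A.st_rep hBks, A.st_append, hY1s]
        exact hV
      have h1 := hC _ _ hsN hco
      rw [List.length_append, List.length_append] at h1
      push_cast at h1
      have h2 : (Mm : ℝ) ≤ Y1.length := by exact_mod_cast hY1len
      have h3 : (0 : ℝ) ≤ (rep Bk qn).length := Nat.cast_nonneg _
      have h4 : (0 : ℝ) ≤ V.length := Nat.cast_nonneg _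
      have h5 : (D.L (A.val (rep Bk qn ++ (Y1 ++ V))) : ℝ) ≤
          D.L (A.val (P1.drop t) * A.val (Y1 ++ V)) + (u s).length := by
        rw [e4]
        have h6 := D.L_mul (A.val ((u s).drop t))⁻¹
          (A.val ((u s).drop t) * A.val (rep Bk qn ++ (Y1 ++ V)))
        rw [inv_mul_cancel_left, D.L_inv] at h6
        have h7 := A.L_val_le ((u s).drop t)
        rw [List.length_drop] at h7
        have h8 : D.L (A.val (rep Bk qn ++ (Y1 ++ V))) ≤
          D.L (A.val ((u s).drop t) * A.val (rep Bk qn ++ (Y1 ++ V))) + (u s).length := by omega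
        exact_mod_cast h8
      by_contra hlt
      push Not at hlt
      have h6 : (D.L (A.val (rep Bk qn ++ (Y1 ++ V))) : ℝ) ≤ B + (u s).length := by
        have : (D.L (A.val (P1.drop t) * A.val (Y1 ++ V)) : ℝ) ≤ B := by exact_mod_cast hlt.le
        linarith
      have h7 : C * (1 + D.L (A.val (rep Bk qn ++ (Y1 ++ V)))) ≤
          C * (1 + (B + (u s).length)) := by
        apply mul_le_mul_of_nonneg_left _ hC0
        linarith
      linarith
  · -- (ii)
    intro V hV
    have hY : A.coacc (A.st s ((rep Bk qn ++ Y1) ++ V)) := by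
      rw [A.st_append, A.st_append, A.st_rep hBks, hY1s]
      exact hV
    have h1 := gromov A hC hsN (rep Bk qn ++ Y1) V hY
    have h2 : P1 ++ Y1 = u s ++ (rep Bk qn ++ Y1) := by rw [hP1, List.append_assoc]
    rw [h2]
    have h3 := D.L_mul (A.val (u s)) (A.val (rep Bk qn ++ Y1))
    rw [← A.val_append] at h3
    have h4 := D.L_mul (A.val (u s))⁻¹ (A.val (u s) * A.val (rep Bk qn ++ Y1 ++ V))
    rw [inv_mul_cancel_left, D.L_inv, ← A.val_append (u s)] at h4
    have h5 : u s ++ (rep Bk qn ++ Y1 ++ V) = u s ++ (rep Bk qn ++ Y1) ++ V := by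
      simp [List.append_assoc]
    rw [h5] at h4
    have h6 := A.L_val_le (u s)
    have h7 : (u s).length ≤ ∑ s : A.Q, (u s).length :=
      Finset.single_le_sum (f := fun s => (u s).length) (fun _ _ => Nat.zero_le _)
        (Finset.mem_univ s)
    have h8 : C ≤ ⌈C⌉₊ := Nat.le_ceil C
    have h3' : (D.L (A.val (u s ++ (rep Bk qn ++ Y1))) : ℝ) ≤
      D.L (A.val (u s)) + D.L (A.val (rep Bk qn ++ Y1)) := by exact_mod_cast h3
    have h4' : (D.L (A.val (rep Bk qn ++ Y1 ++ V)) : ℝ) ≤
      D.L (A.val (u s)) + D.L (A.val (u s ++ (rep Bk qn ++ Y1) ++ V)) := by exact_mod_cast h4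
    have h6' : (D.L (A.val (u s)) : ℝ) ≤ (∑ s : A.Q, (u s).length : ℕ) := by
      exact_mod_cast h6.trans h7
    have h9 : (D.L (A.val (u s ++ (rep Bk qn ++ Y1))) : ℝ) + D.L (A.val V) ≤
      D.L (A.val (u s ++ (rep Bk qn ++ Y1) ++ V)) +
        2 * ((∑ s : A.Q, (u s).length : ℕ) + (⌈C⌉₊ : ℕ)) := by
      linarith
    exact_mod_cast h9
  · -- (iii)
    intro W hW hWlen hclose
    by_contra hnn
    have hcoW : ∀ t, A.coacc (A.st A.q0 (W.take t)) := fun t => (A.live_of_mem hW t).2
    have hstep : ∀ a b : ℕ, a ≤ b → A.st A.q0 (W.take b) =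
        A.st (A.st A.q0 (W.take a)) ((W.drop a).take (b - a)) := by
      intro a b hab
      rw [← A.st_append, ← List.take_add, Nat.add_sub_cancel' hab]
    have hvstep : ∀ a b : ℕ, a ≤ b → A.val (W.take b) =
        A.val (W.take a) * A.val ((W.drop a).take (b - a)) := by
      intro a b hab
      rw [← A.val_append, ← List.take_add, Nat.add_sub_cancel' hab]
    have hroot : ∀ t ≤ P1.length, ¬ A.NiceRoot (A.st A.q0 (W.take t)) := by
      intro t ht hr
      apply hnn
      rw [hstep t _ ht]
      apply A.Nice_st (A.NiceRoot_Nice hr)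
      rw [← hstep t _ ht]
      exact hcoW _
    obtain ⟨j, hj, hrk⟩ := exists_const
      (fun j => A.rk (A.st A.q0 (W.take ((u s).length + j * Bk.length)))) qn
      (A.rk_le_card _) (A.rk_pos _) (by
        intro j _
        rw [hstep ((u s).length + j * Bk.length) ((u s).length + (j + 1) * Bk.length)
          (by nlinarith)]
        exact A.rk_le _ _)
    set b := (u s).length + j * Bk.length with hb
    have hb' : (u s).length + (j + 1) * Bk.length = b + Bk.length := by rw [hb]; ring
    rw [hb'] at hrk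
    have hP1len : P1.length = (u s).length + qn * Bk.length := by
      rw [hP1, List.length_append, length_rep]
    have hbP : b + Bk.length ≤ P1.length := by
      rw [← hb', hP1len]
      have : (j + 1) * Bk.length ≤ qn * Bk.length := Nat.mul_le_mul_right _ (by omega)
      omega
    have hsc0 : A.sc (A.st A.q0 (W.take b)) (A.st A.q0 (W.take (b + Bk.length))) := by
      have h1 := hstep b (b + Bk.length) (by omega)
      rw [h1] at hrk ⊢
      exact A.sc_of_rk_eq hrk
    have hsc : ∀ c ≤ Bk.length, A.sc (A.st A.q0 (W.take b)) (A.st A.q0 (W.take (b + c))) := by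
      intro c hc
      have h1 := hstep b (b + Bk.length) (by omega)
      rw [h1] at hsc0
      have h2 := A.sc_take hsc0 c
      rw [List.take_take, min_eq_left (by omega)] at h2
      rw [hstep b (b + c) (by omega), Nat.add_sub_cancel_left]
      exact h2
    have hBklen : Bk.length = n * A1.length + n * A2.length := by
      rw [hBk, List.length_append, length_rep, length_rep]
    -- words of p0
    have hrepB : ∀ B' : List A.S, Bk = B' → rep Bk qn = rep Bk j ++ (B' ++ rep Bk (qn - j - 1)) := by
      intro B' hB'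
      have e2 : qn = j + ((qn - j - 1) + 1) := by omega
      rw [← hB', ← rep_succ, ← rep_add, ← e2]
    set g0 := A.val (u s ++ rep Bk j) with hg0
    have hp1 : ∀ i ≤ n, A.val ((P1 ++ Y1).take (b + i * A1.length)) = g0 * A.val A1 ^ i := by
      intro i hi
      have e1 : P1 ++ Y1 = (u s ++ rep Bk j ++ rep A1 i) ++
          (rep A1 (n - i) ++ rep A2 n ++ rep Bk (qn - j - 1) ++ Y1) := by
        have e4 : Bk = rep A1 i ++ rep A1 (n - i) ++ rep A2 n := by
          rw [← rep_add, Nat.add_sub_cancel' hi]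
        rw [hP1, hrepB _ e4]
        simp only [List.append_assoc]
      rw [take_of_append e1 (by
        rw [List.length_append, List.length_append, length_rep, length_rep])]
      rw [A.val_append, A.val_rep]
    have hp2 : ∀ i ≤ n, A.val ((P1 ++ Y1).take (b + (n * A1.length + i * A2.length))) =
        g0 * A.val A1 ^ n * A.val A2 ^ i := by
      intro i hi
      have e1 : P1 ++ Y1 = (u s ++ rep Bk j ++ rep A1 n ++ rep A2 i) ++
          (rep A2 (n - i) ++ rep Bk (qn - j - 1) ++ Y1) := by
        have e4 : Bk = rep A1 n ++ (rep A2 i ++ rep A2 (n - i)) := by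
          rw [← rep_add, Nat.add_sub_cancel' hi]
        rw [hP1, hrepB _ e4]
        simp only [List.append_assoc]
      rw [take_of_append e1 (by
        rw [List.length_append, List.length_append, List.length_append, length_rep, length_rep,
          length_rep]
        ring)]
      rw [A.val_append, A.val_rep, A.val_append, A.val_rep]
    have hcl : ∀ c ≤ Bk.length,
        D.N ((A.val ((P1 ++ Y1).take (b + c)))⁻¹ * A.val (W.take (b + c))) ≤ K :=
      fun c hc => hclose (b + c) (by omega)
    have hiA1 : ∀ i ≤ n, i * A1.length ≤ Bk.length := by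
      intro i hi
      have := Nat.mul_le_mul_right A1.length hi
      omega
    have hiA2 : ∀ i ≤ n, n * A1.length + i * A2.length ≤ Bk.length := by
      intro i hi
      have := Nat.mul_le_mul_right A2.length hi
      omega
    -- the component is vertical
    have hvert : A.Vert (A.st A.q0 (W.take b)) := by
      by_contra hnv
      have h0 := hsc _ (hiA1 n le_rfl)
      have h1 := hstep b (b + n * A1.length) (by omega)
      rw [Nat.add_sub_cancel_left] at h1
      rw [h1] at h0
      have h2 := hCH _ _ (A.live_of_mem hW b) hnv h0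
      have h3 := hvstep b (b + n * A1.length) (by omega)
      rw [Nat.add_sub_cancel_left] at h3
      have h4 := hcl _ (hiA1 n le_rfl)
      have h5 := hcl 0 (Nat.zero_le _)
      have h6 := hp1 0 (Nat.zero_le _)
      rw [hp1 n le_rfl] at h4
      rw [Nat.zero_mul, Nat.add_zero, pow_zero, mul_one] at h6
      rw [Nat.add_zero, h6] at h5
      have h7 : ∀ y : H, |(D.e y : ℝ)| ≤ D.N y := by
        intro y
        have := D.e_le y
        have h8 : |(D.e y : ℝ)| ≤ D.L y := by exact_mod_cast this
        exact h8.trans (D.L_le_N y)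
      have h8 := (h7 _).trans h4
      have h9 := (h7 _).trans h5
      rw [D.e_mul, D.e_inv, D.e_mul, D.e_pow, h3, D.e_mul] at h8
      rw [D.e_mul, D.e_inv] at h9
      push_cast at h8 h9
      have h10 : |((D.e (A.val ((W.drop b).take (n * A1.length))) : ℤ) : ℝ)| ≤ CH := by
        exact_mod_cast h2
      rw [abs_le] at h8 h9 h10
      have h11 : (1 : ℝ) ≤ |(D.e (A.val A1) : ℝ)| := by
        have := Int.one_le_abs he1
        exact_mod_cast this
      have hn0 : (0 : ℝ) ≤ n := Nat.cast_nonneg _
      rcases le_total 0 (D.e (A.val A1) : ℝ) with h12 | h12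
      · rw [abs_of_nonneg h12] at h11
        nlinarith
      · rw [abs_of_nonpos h12] at h11
        nlinarith
    -- the constant point
    have hbroot := hroot b (by omega)
    have hblz := hlz _ hvert
    obtain ⟨z, hz⟩ : ∃ z, z = D.act (A.val (W.take b)) (D.cen (A.val (lz (A.st A.q0 (W.take b))))) :=
      ⟨_, rfl⟩
    have hconst : ∀ c ≤ Bk.length, D.act (A.val (W.take (b + c)))
        (D.cen (A.val (lz (A.st A.q0 (W.take (b + c)))))) = z := by
      intro c hc
      have h0 := hsc c hc
      have h1 := hstep b (b + c) (by omega)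
      have h2 := hvstep b (b + c) (by omega)
      rw [Nat.add_sub_cancel_left] at h1 h2
      have h3 := hlz _ (A.Vert_sc hvert h0)
      rw [h1] at h0 h3
      rw [h1, h2, D.act_mul,
        transport A (A.live_of_mem hW b) hbroot hblz.1 hblz.2 h0 h3.1 h3.2, hz]
    have hZ1 : D.act g0⁻¹ z = D.cen (A.val A1) := by
      apply fix_of_finite D he1 _ F n hn1
      intro i hi
      have h1 := hconst _ (hiA1 i hi)
      have h2 := hcl _ (hiA1 i hi)
      rw [hp1 i hi] at h2
      have h3 := hF _ (A.st A.q0 (W.take (b + i * A1.length))) h2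
      rw [D.act_mul, h1] at h3
      rw [← D.act_mul, ← mul_inv_rev]
      exact h3
    have hZ2 : D.act (g0 * A.val A1 ^ n)⁻¹ z = D.cen (A.val A2) := by
      apply fix_of_finite D he2 _ F n hn1
      intro i hi
      have h1 := hconst _ (hiA2 i hi)
      have h2 := hcl _ (hiA2 i hi)
      rw [hp2 i hi] at h2
      have h3 := hF _ (A.st A.q0 (W.take (b + (n * A1.length + i * A2.length)))) h2
      rw [D.act_mul, h1] at h3
      rw [← D.act_mul, ← mul_inv_rev]
      exact h3
    apply hcen
    rw [← hZ2, mul_inv_rev, D.act_mul, hZ1]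
    have h1 : D.act (A.val A1 ^ (n : ℤ)) (D.cen (A.val A1)) = D.cen (A.val A1) :=
      D.act_zpow_fix (D.act_cen he1) n
    rw [zpow_natCast] at h1
    conv_rhs => rw [← h1]
    rw [D.act_inv_act]

end H57.QI
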